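import Pool.Agent.Helper2.NewtonSmoothD
import Pool.Agent.Y373.NC.Fin
import Pool.Agent.Y373.NC.Low
import Pool.Agent.Y373.NC.Hull
import Pool.Agent.Y373.NC.Cap
import Pool.Agent.Y373.NC.Pair
import Pool.Agent.Y373.NC.Copy
import Pool.Agent.Y373.NC.Hoef
import Pool.Agent.Y373.NC.Cnt
import Pool.Agent.Y373.NC.Net
import Pool.Agent.Y373.NC.Match
import Pool.Agent.Y373.NC.Sepc
import Pool.Agent.Y373.NC.Badc
import Pool.Agent.Y373.NC.Num
import Pool.Agent.Y373.NC.Exist
import Pool.Agent.Y373.NC.Upper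

/-!
# The largest Newton covering number grows exponentially with the dimension
-/

set_option autoImplicit false

namespace Pool.Agent.Results.MP_54d165_co.ExponentialGrowth

open Set Metric
open Pool.Agent.Helper2.NewtonCover
open Pool.Agent.Helper2.NewtonSmooth
open Pool.Agent.Helper2.NewtonSmoothD
open Pool.Agent.Y373.NC

theorem result :
    -- in every large dimension there is a convex body that needs more than `1.009 ^ d` copies
    (∃ d₀ : ℕ, ∀ d : ℕ, d₀ ≤ d → ∃ C : Set (E d), IsBody C ∧ (1.009 : ℝ) ^ d ≤ newton C) ∧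
    -- `M(d)` exists and lies between two exponential functions
    (∃ c : ℝ, 1 < c ∧ ∀ d : ℕ, 1 ≤ d → ∃ M : ℕ,
      IsGreatest {m : ℕ | ∃ C : Set (E d), IsBody C ∧ newton C = m} M ∧
      c ^ d ≤ M ∧ M ≤ 7 ^ d) ∧
    -- in large dimensions no smooth body attains the maximum
    (∃ d₀ : ℕ, ∀ d : ℕ, d₀ ≤ d → ∀ C : Set (E d), IsBody C →
      (∀ C' : Set (E d), IsBody C' → newton C' ≤ newton C) → ¬ Smooth C) := by
  have hcopy : S_copy := copy spike hull cap (pair cap) body
  have hlow : S_low := low hcopy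
  have hexist : S_exist := exist (sepc hoef cnt) (badc (ball_count hoef) cnt) num (few_matches net)
  obtain ⟨h1, h2⟩ := main hlow body hexist num2 upper
  refine ⟨h1, h2, ?_⟩
  obtain ⟨d₁, h1⟩ := h1
  have hlim : ∃ d₂ : ℕ, ∀ d : ℕ, d₂ ≤ d → ((d : ℝ) + 1) < (1.009 : ℝ) ^ d := by
    have h3 : Filter.Tendsto (fun d : ℕ => ((d : ℝ) ^ 1) / (1.009 : ℝ) ^ d) Filter.atTop (nhds 0) :=
      tendsto_pow_const_div_const_pow_of_one_lt 1 (by norm_num)
    have h4 := h3.eventually (gt_mem_nhds (show (0 : ℝ) < 1 / 2 by norm_num))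
    obtain ⟨d₂, h5⟩ := Filter.eventually_atTop.mp h4
    refine ⟨max d₂ 2, fun d hd => ?_⟩
    have h6 := h5 d ((le_max_left _ _).trans hd)
    have h7 : (0 : ℝ) < (1.009 : ℝ) ^ d := by positivity
    rw [pow_one, div_lt_iff₀ h7] at h6
    have h8 : (2 : ℝ) ≤ d := by exact_mod_cast (le_max_right _ _).trans hd
    linarith
  obtain ⟨d₂, h3⟩ := hlim
  refine ⟨max d₁ d₂, fun d hd C hC hmax hs => ?_⟩
  obtain ⟨C', hC', h4⟩ := h1 d ((le_max_left _ _).trans hd)
  have h5 := h3 d ((le_max_right _ _).trans hd)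
  have h6 : newton C ≤ d + 1 := by
    have := smooth_upper hC.1 hC.2.1 hC.2.2 hs
    rw [finrank_euclideanSpace_fin] at this
    exact Nat.sInf_le this
  have h7 := hmax C' hC'
  have h8 : (newton C' : ℝ) ≤ (d : ℝ) + 1 := by exact_mod_cast h7.trans h6
  linarith

end Pool.Agent.Results.MP_54d165_co.ExponentialGrowth
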